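import Pool.Agent.H37.DEN.Sup0
import Pool.Agent.H55.FFM.SupP
import Pool.Agent.H18.BKH.Fin

/-!
# Non-birational maps of affine 3-space: the theorem from the rows
-/

set_option autoImplicit false

open MvPolynomial Filter
open Pool.Agent.H12.ZD (pmap v O Res DenseOrbit NoInv)
open Pool.Agent.H18.HIT
open Pool.Agent.H8.TD (lc Wsp K3 xx ph dg)
open Pool.Agent.H55.FFM (Vs PD VM deh trh Ext Ind fr T_GDP T_VMX T_CRV T_RDT T_EXX T_DGN T_DGC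
  T_GRB T_UPB T_DEH T_CMP Cj SupP CD supP)

namespace Pool.Agent.H37.DEN

/-- no invariant functions -/
theorem inv_of_noInv {k : Type} [Field k] (T : Tup 3 k) (σ : K3 k →ₐ[k] K3 k)
    (hmap : ∀ q, σ (ι q) = ι (aeval T q)) (hinv : NoInv T) (h : K3 k) (hh : σ h = h) :
    ∃ c : k, h = algebraMap k (K3 k) c := by
  obtain ⟨P, Q, hQ, hPQ⟩ := IsFractionRing.div_surjective (A := Po 3 k) h
  have hQ0 : Q ≠ 0 := nonZeroDivisors.ne_zero hQ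
  have hQ1 : ι Q ≠ 0 := fun h0 => hQ0 (IsFractionRing.injective (Po 3 k) (K3 k) (by
    rw [map_zero]; exact h0))
  have hPQ' : h = ι P / ι Q := hPQ.symm
  have hQ2 : ι (aeval T Q) ≠ 0 := by
    rw [← hmap]
    exact (map_ne_zero σ).2 hQ1
  by_contra hcon
  push Not at hcon
  apply hinv
  refine ⟨P, Q, hQ0, fun c hc => hcon c ?_, ?_⟩
  · rw [hPQ', hc]
    have h1 : ι (C c * Q) = algebraMap k (K3 k) c * ι Q := by
      change algebraMap (Po 3 k) (K3 k) (C c * Q) = _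
      rw [map_mul]
      rfl
    rw [h1, mul_div_cancel_right₀ _ hQ1]
  · rw [hPQ', map_div₀, hmap, hmap, div_eq_div_iff hQ2 hQ1] at hh
    apply IsFractionRing.injective (Po 3 k) (K3 k)
    rw [map_mul, map_mul]
    change ι (aeval T P) * ι Q = ι (aeval T Q) * ι P
    rw [hh, mul_comm]

/-- the growth of the iterates of a conjugate of an iterate -/
theorem grow_conj (hGRB : T_GRB) (f G : Tup 3 Qb) (K₀ : ℕ) (a : Fin 3 → Qb) (t : Qb)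
    (τ₀ τ : K3 Qb →ₐ[Qb] K3 Qb) (e : ℕ) (hCj : Cj f G K₀ a t) (hτ₀ : Ext f τ₀) (hτ : Ext G τ)
    (hgr : Grow τ₀ e) : Grow (τ.comp τ) ((e ^ K₀) ^ 2) := by
  intro c hc
  have hK : 1 ≤ K₀ := hCj.2.1
  have hc0 : 0 < c := lt_of_le_of_lt (by positivity) hc
  set c₁ : ℝ := c ^ (((K₀ * 2 : ℕ) : ℝ)⁻¹) with hc₁
  have hc1 : c₁ ^ (K₀ * 2) = c := Real.rpow_inv_natCast_pow hc0.le (by omega)
  have hc1' : 0 < c₁ := Real.rpow_pos_of_pos hc0 _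
  have hlt : (e : ℝ) < c₁ := by
    by_contra hcon
    push Not at hcon
    have h1 : c₁ ^ (K₀ * 2) ≤ (e : ℝ) ^ (K₀ * 2) := pow_le_pow_left₀ hc1'.le hcon _
    rw [hc1, pow_mul] at h1
    push_cast at hc
    linarith
  obtain ⟨N, hN⟩ := hgr c₁ hlt
  refine ⟨N, fun n hn s s' s'' => ?_⟩
  have hph : ph (τ.comp τ) n = ph τ (2 * n) := by
    funext i
    change (τ.comp τ)^[n] (xx Qb i) = τ^[2 * n] (xx Qb i)
    rw [Function.iterate_mul]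
    rfl
  have hpos : 0 < c₁ ^ (K₀ * (2 * n)) := by positivity
  have hM : ∀ s s' s'' : Fin 3 → Qb,
      dg Qb {lc s (xx Qb), lc s' (ph τ₀ (K₀ * (2 * n))), lc s'' (ph τ₀ (K₀ * (2 * n)))} ≤
        ⌈c₁ ^ (K₀ * (2 * n))⌉₊ - 1 := by
    intro s s' s''
    have h1 := hN (K₀ * (2 * n)) (by nlinarith) s s' s''
    have h2 := Nat.lt_ceil.2 h1
    omega
  have h3 := hGRB Qb f G K₀ a t τ₀ τ (2 * n) _ hCj hτ₀ hτ hM s s' s''
  have h4 : 1 ≤ ⌈c₁ ^ (K₀ * (2 * n))⌉₊ := Nat.one_le_ceil_iff.2 hpos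
  have h5 := Nat.ceil_lt_add_one hpos.le
  have h6 : ((⌈c₁ ^ (K₀ * (2 * n))⌉₊ - 1 : ℕ) : ℝ) < c₁ ^ (K₀ * (2 * n)) := by
    rw [Nat.cast_sub h4]
    push_cast
    linarith
  have h7 : c₁ ^ (K₀ * (2 * n)) = c ^ n := by
    rw [← mul_assoc, pow_mul, hc1]
  rw [hph, ← h7]
  refine lt_of_le_of_lt ?_ h6
  exact_mod_cast h3

/-- the action on the rational functions -/
theorem fld_sq (hDEH : T_DEH) (hCMP : T_CMP) (G : Tup 3 Qb) (τ : K3 Qb →ₐ[Qb] K3 Qb) (E : ℕ)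
    (hτ : Ext G τ) (hE : 2 ≤ E) (hdeg : deh (τ : K3 Qb →+* K3 Qb) = E)
    (hinv : NoInv (it G 2)) : Fld (it G 2) (τ.comp τ) (E ^ 2) := by
  have hmap : ∀ q, (τ.comp τ) (ι q) = ι (aeval (it G 2) q) := by
    intro q
    have h1 : (τ.comp τ) (ι q) = τ (τ (fr q)) := rfl
    rw [h1, hτ, hτ, aeval_it_succ', it_one]
    rfl
  refine ⟨hmap, ?_, ?_, fun h hh => inv_of_noInv _ _ hmap hinv h hh⟩
  · nlinarith
  · have h1 := (hCMP (K3 Qb) (τ : K3 Qb →+* K3 Qb) (τ : K3 Qb →+* K3 Qb) (by omega)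
      (by omega)).1
    rw [hdeg, ← sq] at h1
    have h2 := hDEH (K3 Qb) ((τ : K3 Qb →+* K3 Qb).comp (τ : K3 Qb →+* K3 Qb))
    rw [h1] at h2
    rw [h2]
    rfl

/-- maps of topological degree at least two -/
theorem nonbirE (hPAR : T_PAR) (hNTH : T_NTH) (hUPB : T_UPB) (hGRB : T_GRB) (hDEH : T_DEH)
    (hCMP : T_CMP) (hEXX : T_EXX) (hCVE : T_CVE) (hDGN : T_DGN) (hNIT : T_NIT) (hPEL : T_PEL)
    (hDGC : T_DGC) (hGDP : T_GDP) (hVMX : T_VMX) (hRDT : T_RDT) (hCRV : T_CRV)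
    (hRNK : Pool.Agent.H55.FFM.T_RNK) (hRTD : T_RTD) (f : Tup 3 Qb) (b : Po 3 Qb)
    (hinj : Function.Injective (aeval f : Po 3 Qb →ₐ[Qb] Po 3 Qb)) (hinv : NoInv f)
    (θ₀ : Po 3 Qb) (Φ₀ : Polynomial (Po 3 Qb)) (Δ₀ : Po 3 Qb)
    (R₀ : Fin 3 → Polynomial (Po 3 Qb)) (hprim₀ : Prim f θ₀ Φ₀ Δ₀ R₀)
    (he2 : 2 ≤ Φ₀.natDegree) (hb : b ≠ 0) :
    ∃ x : Fin 3 → Qb, (∀ n : ℕ, eval ((pmap f)^[n] x) b ≠ 0) ∧ DenseOrbit f x := by
  classical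
  set e : ℕ := Φ₀.natDegree with he
  obtain ⟨c', hc', hupb⟩ := hUPB 3 Qb f θ₀ Φ₀ Δ₀ R₀ hprim₀
  by_cases hno : ∃ x : Fin 3 → Qb, (∀ n : ℕ, eval ((pmap f)^[n] x) b ≠ 0) ∧ DenseOrbit f x
  · exact hno
  exfalso
  rcases supP hEXX hCVE hDGN hNIT hPEL hDGC hGDP hVMX hRDT hCRV hRNK hRTD f b θ₀ Φ₀ Δ₀ R₀ hinj
    hinv hprim₀ hb with h | ⟨p, K₀, a, H, τ₀, τ, θ, Φ, Δ, R, hCD⟩
  · exact hno h
  have hK : 1 ≤ K₀ := hCD.cj.2.1
  have hphf : ∀ n, ph τ₀ n = fun i => algebraMap (Po 3 Qb) (K3 Qb) (it f n i) := by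
    intro n
    funext i
    have h1 : ∀ (n : ℕ) (q : Po 3 Qb), τ₀^[n] (fr q) = fr (aeval (it f n) q) := by
      intro n
      induction n with
      | zero =>
        intro q
        rw [it_zero, aeval_X_left_apply]
        rfl
      | succ n ih =>
        intro q
        rw [Function.iterate_succ_apply', ih, hCD.ext₀, aeval_it_succ']
    have h2 : ph τ₀ n i = τ₀^[n] (fr (X i)) := rfl
    rw [h2, h1, aeval_X]
  have hgr : Grow τ₀ e := by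
    intro c hc
    by_contra hcon
    push Not at hcon
    apply hno
    refine Pool.Agent.H18.BKH.n3affB f b hinj hinv e (by omega)
      ⟨c', hc', fun y hy S hS => hupb y hy S hS⟩ c hc ?_ hb
    intro N
    obtain ⟨n, hn, s, s', s'', h1⟩ := hcon N
    refine ⟨n, hn, s, s', s'', ?_⟩
    rw [← hphf n]
    exact h1
  have hEe : Φ.natDegree = e ^ K₀ := hCD.deg
  have hE2 : 2 ≤ Φ.natDegree := by
    rw [hEe]
    calc 2 ≤ e := he2
      _ = e ^ 1 := (pow_one e).symm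
      _ ≤ e ^ K₀ := Nat.pow_le_pow_right (by omega) hK
  refine fam hPAR hNTH Qb (flQ p H) Φ.natDegree hE2 hCD.sup (τ.comp τ)
    (fld_sq hDEH hCMP (flQ p H) τ Φ.natDegree hCD.ext hE2 hCD.dgt
      (hNIT 3 Qb (flQ p H) 2 hCD.inj (by norm_num) hCD.inv)) ?_
  rw [hEe]
  exact grow_conj hGRB f (flQ p H) K₀ _ _ τ₀ τ e hCD.cj hCD.ext₀ hCD.ext hgr

/-- a map with a primitive element of degree one is birational -/
theorem birat (hDEH : T_DEH) (hEXX : T_EXX) (hDGN : T_DGN) (f : Tup 3 Qb)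
    (hinj : Function.Injective (aeval f : Po 3 Qb →ₐ[Qb] Po 3 Qb))
    (θ₀ : Po 3 Qb) (Φ₀ : Polynomial (Po 3 Qb)) (Δ₀ : Po 3 Qb)
    (R₀ : Fin 3 → Polynomial (Po 3 Qb)) (hprim₀ : Prim f θ₀ Φ₀ Δ₀ R₀)
    (h1 : Φ₀.natDegree = 1) :
    IntermediateField.adjoin Qb (Set.range fun i => algebraMap (Po 3 Qb) (K3 Qb) (f i)) = ⊤ := by
  obtain ⟨τ₀, hτ₀⟩ := hEXX 3 Qb f hinj
  have hdeg₀ : deh (τ₀ : K3 Qb →+* K3 Qb) = Φ₀.natDegree :=
    hDGN 3 Qb f τ₀ θ₀ Φ₀ Δ₀ R₀ hinj hτ₀ hprim₀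
  have h2 : Module.finrank τ₀.fieldRange (K3 Qb) = 1 := by
    have h3 := hDEH (K3 Qb) (τ₀ : K3 Qb →+* K3 Qb)
    rw [hdeg₀, h1] at h3
    exact h3.symm
  have h3 : τ₀.fieldRange = ⊤ := IntermediateField.finrank_eq_one_iff_eq_top.1 h2
  set L := IntermediateField.adjoin Qb
    (Set.range fun i => algebraMap (Po 3 Qb) (K3 Qb) (f i)) with hL
  have h4 : ∀ P : Po 3 Qb, algebraMap (Po 3 Qb) (K3 Qb) (aeval f P) ∈ L := by
    intro P
    induction P using MvPolynomial.induction_on with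
    | C a =>
      have e1 : algebraMap (Po 3 Qb) (K3 Qb) (aeval f (C a)) = algebraMap Qb (K3 Qb) a := by
        rw [← MvPolynomial.algebraMap_eq, AlgHom.commutes,
          IsScalarTower.algebraMap_apply Qb (Po 3 Qb) (K3 Qb)]
      rw [e1]
      exact L.algebraMap_mem a
    | add p q hp hq =>
      rw [map_add, map_add]
      exact L.add_mem hp hq
    | mul_X p i hp =>
      rw [map_mul, map_mul, aeval_X]
      exact L.mul_mem hp (IntermediateField.subset_adjoin _ _ ⟨i, rfl⟩)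
  rw [eq_top_iff]
  intro x _
  have h5 : x ∈ τ₀.fieldRange := by rw [h3]; trivial
  obtain ⟨a, ha⟩ := AlgHom.mem_fieldRange.1 h5
  obtain ⟨P, Q, -, hPQ⟩ := IsFractionRing.div_surjective (A := Po 3 Qb) a
  rw [← ha, ← hPQ, map_div₀]
  have e1 : ∀ q : Po 3 Qb, τ₀ (algebraMap (Po 3 Qb) (K3 Qb) q) =
      algebraMap (Po 3 Qb) (K3 Qb) (aeval f q) := fun q => hτ₀ q
  rw [e1, e1]
  exact L.div_mem (h4 P) (h4 Q)

/-- **non-birational maps, and maps with exponential growth** -/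
theorem dim3 (hPAR : T_PAR) (hNTH : T_NTH) (hUPB : T_UPB) (hGRB : T_GRB) (hDEH : T_DEH)
    (hCMP : T_CMP) (hEXX : T_EXX) (hCVE : T_CVE) (hDGN : T_DGN) (hNIT : T_NIT) (hPEL : T_PEL)
    (hDGC : T_DGC) (hGDP : T_GDP) (hVMX : T_VMX) (hRDT : T_RDT) (hCRV : T_CRV)
    (hRNK : Pool.Agent.H55.FFM.T_RNK) (hRTD : T_RTD) (f : Tup 3 Qb) (b : Po 3 Qb)
    (hinj : Function.Injective (aeval f : Po 3 Qb →ₐ[Qb] Po 3 Qb)) (hinv : NoInv f)
    (h : IntermediateField.adjoin Qb (Set.range fun i => algebraMap (Po 3 Qb) (K3 Qb) (f i)) ≠ ⊤ ∨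
      ∃ μ : ℝ, 1 < μ ∧ ∀ M : ℕ, ∃ n ≥ M, (∃ i, μ ^ n ≤ ((it f n i).totalDegree : ℝ)) ∨
        ∃ s s' s'' : Fin 3 → Qb,
          μ ^ n ≤ (dg Qb {lc s (xx Qb), lc s' (fun i => algebraMap (Po 3 Qb) (K3 Qb) (it f n i)),
            lc s'' (fun i => algebraMap (Po 3 Qb) (K3 Qb) (it f n i))} : ℝ)) (hb : b ≠ 0) :
    ∃ x : Fin 3 → Qb, (∀ n : ℕ, eval ((pmap f)^[n] x) b ≠ 0) ∧ DenseOrbit f x := by
  obtain ⟨θ₀, Φ₀, Δ₀, R₀, hprim₀⟩ := hPEL 3 Qb f hinj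
  rcases Nat.lt_or_ge Φ₀.natDegree 2 with hlt | hge
  · have he1 : 1 ≤ Φ₀.natDegree := by
      rcases Nat.eq_zero_or_pos Φ₀.natDegree with h0 | h0
      · exfalso
        have h1 : Φ₀ = 1 := by
          have h2 := Polynomial.eq_C_of_natDegree_eq_zero h0
          have h3 := hprim₀.monic
          rw [h2, Polynomial.Monic, Polynomial.leadingCoeff_C] at h3
          rw [h2, h3, Polynomial.C_1]
        have h2 := hprim₀.root
        rw [h1, ev2, Polynomial.eval₂_one] at h2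
        exact one_ne_zero h2
      · exact h0
    have h1 : Φ₀.natDegree = 1 := by omega
    rcases h with h | ⟨μ, hμ, hgrow⟩
    · exact absurd (birat hDEH hEXX hDGN f hinj θ₀ Φ₀ Δ₀ R₀ hprim₀ h1) h
    · obtain ⟨c', hc', hupb⟩ := hUPB 3 Qb f θ₀ Φ₀ Δ₀ R₀ hprim₀
      rw [h1] at hupb
      have hμ' : ((1 : ℕ) : ℝ) < μ := by rwa [Nat.cast_one]
      by_cases h2 : ∀ M : ℕ, ∃ n ≥ M, ∃ i, μ ^ n ≤ ((it f n i).totalDegree : ℝ)
      · exact Pool.Agent.H8.TD.n3aff f b hinj hinv 1 le_rfl ⟨c', hc', hupb⟩ μ hμ' h2 hb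
      · push Not at h2
        obtain ⟨M₀, hM₀⟩ := h2
        refine Pool.Agent.H18.BKH.n3affB f b hinj hinv 1 le_rfl ⟨c', hc', hupb⟩ μ hμ'
          (fun M => ?_) hb
        obtain ⟨n, hn, hor⟩ := hgrow (max M M₀)
        refine ⟨n, (le_max_left _ _).trans hn, ?_⟩
        rcases hor with ⟨i, hi⟩ | hs
        · exact absurd hi (not_le.2 (hM₀ n ((le_max_right _ _).trans hn) i))
        · exact hs
  · exact nonbirE hPAR hNTH hUPB hGRB hDEH hCMP hEXX hCVE hDGN hNIT hPEL hDGC hGDP hVMX hRDT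
      hCRV hRNK hRTD f b hinj hinv θ₀ Φ₀ Δ₀ R₀ hprim₀ hge hb

end Pool.Agent.H37.DEN
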