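import Pool.Agent.H37.DEN.AllN
import Pool.Agent.H37.DEN.FinH
import Pool.Agent.H8.HIT.P1
import Pool.Agent.H17.DEN.BDD

/-!
# Non-birational maps of affine 3-space: the theorems without hypotheses
-/

set_option autoImplicit false

open MvPolynomial Filter
open Pool.Agent.H12.ZD (pmap DenseOrbit NoInv)
open Pool.Agent.H18.HIT
open Pool.Agent.H8.TD (lc K3 xx ph dg)

namespace Pool.Agent.H37.DEN

theorem Al.bdd : T_BDD := Pool.Agent.H17.DEN.pf_BDD Al.rdg Al.itr Pool.Agent.H8.HIT.pf_JAC Al.sum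
  Al.val Al.res Al.kon Al.idx Al.pol Al.rk1 Al.sgn Al.dom Al.xgr Al.omg Al.cyc Al.cop Al.din
  Al.tay

/-- there are no families of totally invariant curves -/
theorem Al.nth : T_NTH := by
  intro k _ _ _ T τ e m S U C hF hG
  obtain ⟨D, hD⟩ := Al.bdd k T τ e m S U C hF hG
  exact Al.rnk' k T τ e m S U C hF D hD

/-- **non-birational maps** of affine 3-space, and maps with exponential growth of the degrees -/
theorem n3all (f : Tup 3 Qb) (b : Po 3 Qb)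
    (hinj : Function.Injective (aeval f : Po 3 Qb →ₐ[Qb] Po 3 Qb)) (hinv : NoInv f)
    (h : IntermediateField.adjoin Qb (Set.range fun i => algebraMap (Po 3 Qb) (K3 Qb) (f i)) ≠ ⊤ ∨
      ∃ μ : ℝ, 1 < μ ∧ ∀ M : ℕ, ∃ n ≥ M, (∃ i, μ ^ n ≤ ((it f n i).totalDegree : ℝ)) ∨
        ∃ s s' s'' : Fin 3 → Qb,
          μ ^ n ≤ (dg Qb {lc s (xx Qb), lc s' (fun i => algebraMap (Po 3 Qb) (K3 Qb) (it f n i)),
            lc s'' (fun i => algebraMap (Po 3 Qb) (K3 Qb) (it f n i))} : ℝ)) (hb : b ≠ 0) :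
    ∃ x : Fin 3 → Qb, (∀ n : ℕ, eval ((pmap f)^[n] x) b ≠ 0) ∧ DenseOrbit f x :=
  dim3 Al.par Al.nth Al.upb Al.grb Al.deh Al.cmp Al.exx All.cve Al.dgn All.nit All.pel Al.dgc
    Al.gdp Al.vmx Al.rdt Al.crv Al.rnk All.rtd f b hinj hinv h hb

end Pool.Agent.H37.DEN
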