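import Pool.Agent.H8.TD.All
import Pool.Agent.H18.HIT.All
import Pool.Agent.H55.FFM.GDP
import Pool.Agent.H36.FFM.BAS
import Pool.Agent.H91.FFM.TMX
import Pool.Agent.H72.FFM.CMP
import Pool.Agent.H72.FFM.TRC
import Pool.Agent.H41.FFM.EXX
import Pool.Agent.H41.FFM.FLG
import Pool.Agent.H41.FFM.PRM
import Pool.Agent.H41.FFM.ITG
import Pool.Agent.H79.FFM.DGN
import Pool.Agent.H79.FFM.DGC
import Pool.Agent.H79.FFM.GRB
import Pool.Agent.H79.FFM.CSZ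
import Pool.Agent.H97.FFM.UPB
import Pool.Agent.H97.FFM.VMX
import Pool.Agent.H97.FFM.CRV
import Pool.Agent.H97.FFM.IND
import Pool.Agent.H66.FFM.HIC
import Pool.Agent.H35.FFM.RDT
import Pool.Agent.H52.FFM.CTN
import Pool.Agent.H54.FFM.RNK
import Pool.Agent.H11.FFM.NOE
import Pool.Agent.H42.FFM.PV1
import Pool.Agent.H42.FFM.PV2
import Pool.Agent.H42.FFM.PLA
import Pool.Agent.H42.FFM.DGP
import Pool.Agent.H53.FFM.PV3
import Pool.Agent.H17.FFM.PV4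
import Pool.Agent.H38.FFM.LNN
import Pool.Agent.H38.FFM.INQ
import Pool.Agent.H59.FFM.LEV
import Pool.Agent.H4.FFM.RIE
import Pool.Agent.H60.FFM.EXT
import Pool.Agent.H86.FFM.DVL

/-!
# Non-birational maps of affine 3-space: the facts on curves and on general points
-/

set_option autoImplicit false

namespace Pool.Agent.H37.DEN.Al

open Pool.Agent.H55.FFM

theorem bas : T_BAS := Pool.Agent.H36.FFM.pf_BAS
theorem tmx : T_TMX := Pool.Agent.H91.FFM.pf_TMX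
theorem tln : T_TLN := Pool.Agent.H91.FFM.pf_TLN
theorem deh : T_DEH := Pool.Agent.H91.FFM.pf_DEH
theorem cmp : T_CMP := Pool.Agent.H72.FFM.pf_CMP tmx bas
theorem grm : T_GRM := Pool.Agent.H72.FFM.pf_GRM tmx tln
theorem exx : T_EXX := Pool.Agent.H41.FFM.pf_EXX
theorem dgn : T_DGN := Pool.Agent.H79.FFM.pf_DGN tmx bas
theorem dgc : T_DGC := Pool.Agent.H79.FFM.pf_DGC cmp
theorem grb : T_GRB := Pool.Agent.H79.FFM.pf_GRB
theorem upb : T_UPB := Pool.Agent.H97.FFM.pf_UPB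
theorem vmx : T_VMX := Pool.Agent.H97.FFM.pf_VMX
theorem ctn : T_CTN := Pool.Agent.H52.FFM.pf_CTN
theorem crv : T_CRV := Pool.Agent.H97.FFM.pf_CRV ctn
theorem rnk : T_RNK := Pool.Agent.H54.FFM.pf_RNK
theorem rdt : T_RDT := Pool.Agent.H35.FFM.pf_RDT tmx bas
theorem hic : T_HIC := Pool.Agent.H66.FFM.pf_HIC Pool.Agent.H18.HIT.All.hit
theorem gdp : T_GDP := pf_GDP Pool.Agent.H18.HIT.All.inc Pool.Agent.H18.HIT.All.prm
  Pool.Agent.H18.HIT.All.pel hic Pool.Agent.H18.HIT.All.pre Pool.Agent.H18.HIT.All.str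
  Pool.Agent.H18.HIT.All.avo Pool.Agent.H18.HIT.All.igc Pool.Agent.H18.HIT.All.lyo
  Pool.Agent.H18.HIT.All.hyp Pool.Agent.H18.HIT.All.can
theorem nrf : T_NRF := Pool.Agent.H8.TD.Al.nrf
theorem low : T_LOW := Pool.Agent.H8.TD.Al.low
theorem pbk : T_PBK := Pool.Agent.H8.TD.Al.pbk
theorem noe : T_NOE := Pool.Agent.H11.FFM.pf_NOE
theorem pv1 : T_PV1 := Pool.Agent.H42.FFM.pf_PV1
theorem pv2 : T_PV2 := Pool.Agent.H42.FFM.pf_PV2
theorem pv3 : T_PV3 := Pool.Agent.H53.FFM.pf_PV3 pv1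
theorem pv4 : T_PV4 := Pool.Agent.H17.FFM.pf_PV4 pv1
theorem lnn : T_LNN := Pool.Agent.H38.FFM.pf_LNN
theorem pla : T_PLA := Pool.Agent.H42.FFM.pf_PLA noe pv1 pv2 pv3 pv4 lnn nrf
theorem csz : T_CSZ := Pool.Agent.H79.FFM.pf_CSZ low
theorem dgp : T_DGP := Pool.Agent.H42.FFM.pf_DGP low csz
theorem lev : T_LEV := Pool.Agent.H59.FFM.pf_LEV
theorem flg : T_FLG := Pool.Agent.H41.FFM.pf_FLG lev
theorem rie : T_RIE := Pool.Agent.H4.FFM.pf_RIE lev dgp csz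
theorem ext : T_EXT := Pool.Agent.H60.FFM.pf_EXT
theorem prm : T_PRM := Pool.Agent.H41.FFM.pf_PRM dgp rie ext pbk deh
theorem itg : T_ITG := Pool.Agent.H41.FFM.pf_ITG pla prm
theorem ind : T_IND := Pool.Agent.H97.FFM.pf_IND bas
theorem trc : T_TRC := Pool.Agent.H72.FFM.pf_TRC bas tmx ind tln
theorem dvl : T_DVL := Pool.Agent.H86.FFM.pf_DVL trc
theorem jnt : T_JNT := Pool.Agent.H72.FFM.pf_JNT cmp
theorem inq : T_INQ := Pool.Agent.H38.FFM.pf_INQ rie prm csz ind grm tln trc dvl jnt flg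

end Pool.Agent.H37.DEN.Al
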