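import Pool.Agent.H37.DEN.AllF
import Pool.Agent.H55.TD.AXF
import Pool.Agent.H42.DEN.RDG
import Pool.Agent.H42.DEN.ITR
import Pool.Agent.H11.DEN.FDM
import Pool.Agent.H11.DEN.HSF
import Pool.Agent.H11.DEN.LWP
import Pool.Agent.H75.DEN.INC
import Pool.Agent.H68.DEN.DIM
import Pool.Agent.H68.DEN.AUXP
import Pool.Agent.H72.DEN.SUM
import Pool.Agent.H72.DEN.SPC
import Pool.Agent.H72.DEN.CRD
import Pool.Agent.H13.DEN.BEZ
import Pool.Agent.H69.DEN.RBD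
import Pool.Agent.H69.DEN.NRM
import Pool.Agent.H76.DEN.VKP
import Pool.Agent.H76.DEN.CYC
import Pool.Agent.H81.DEN.HTB
import Pool.Agent.H81.DEN.DG1
import Pool.Agent.H81.DEN.SGN
import Pool.Agent.H81.DEN.DIN
import Pool.Agent.H81.DEN.SBH
import Pool.Agent.H81.DEN.PAR
import Pool.Agent.H95.DEN.LIN
import Pool.Agent.H95.DEN.FGT
import Pool.Agent.H95.DEN.NMR
import Pool.Agent.H95.DEN.GNC
import Pool.Agent.H95.DEN.DOM
import Pool.Agent.H95.DEN.DG2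
import Pool.Agent.H95.DEN.VAL
import Pool.Agent.H53.DEN.RK1
import Pool.Agent.H40.DEN.OMG
import Pool.Agent.H40.DEN.RHO
import Pool.Agent.H7.DEN.IDX
import Pool.Agent.H51.DEN.POL
import Pool.Agent.H54.DEN.DFM
import Pool.Agent.H70.DEN.TAY
import Pool.Agent.H43.DEN.EXN
import Pool.Agent.H43.DEN.RNK
import Pool.Agent.H80.DEN.BOT
import Pool.Agent.H89.DEN.EMB

/-!
# Non-birational maps of affine 3-space: the rows together
-/

set_option autoImplicit false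

namespace Pool.Agent.H37.DEN.Al

open Pool.Agent.H37.DEN

/-! ## Part P -/

theorem exn : T_EXN := Pool.Agent.H43.DEN.pf_EXN
theorem sbh : T_SBH := Pool.Agent.H81.DEN.pf_SBH
theorem bot : T_BOT := Pool.Agent.H80.DEN.pf_BOT
theorem emb : T_EMB := Pool.Agent.H89.DEN.pf_EMB exn sbh bot
theorem nrm : T_NRM := Pool.Agent.H69.DEN.pf_NRM noe
theorem crd : T_CRD := Pool.Agent.H72.DEN.pf_CRD itg inq
theorem par : T_PAR := Pool.Agent.H81.DEN.pf_PAR nrm crd emb pla csz prm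

/-! ## Part N -/

theorem rdg : T_RDG := Pool.Agent.H42.DEN.pf_RDG
theorem itr : T_ITR := Pool.Agent.H42.DEN.pf_ITR rdg
theorem fdm : T_FDM := Pool.Agent.H11.DEN.pf_FDM
theorem hsf : T_HSF := Pool.Agent.H11.DEN.pf_HSF Pool.Agent.H18.HIT.All.rtd
theorem lwp : T_LWP := Pool.Agent.H11.DEN.pf_LWP Pool.Agent.H18.HIT.All.rtd
theorem inc : Pool.Agent.H37.DEN.T_INC := Pool.Agent.H75.DEN.pf_INC
theorem dim : T_DIM := Pool.Agent.H68.DEN.pf_DIM fdm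
theorem nmj : T_NMJ := Pool.Agent.H72.DEN.pf_NMJ
theorem bez : T_BEZ := Pool.Agent.H13.DEN.pf_BEZ Pool.Agent.H8.TD.Al.pdg Pool.Agent.H8.TD.Al.adj
theorem rbd : T_RBD := Pool.Agent.H69.DEN.pf_RBD Pool.Agent.H8.TD.Al.clr Pool.Agent.H8.TD.Al.adj
theorem aux : T_AUX := Pool.Agent.H68.DEN.pf_AUX fdm inc dim rbd hsf nmj lwp
  Pool.Agent.H55.TD.pf_AXF
theorem sum : T_SUM := Pool.Agent.H72.DEN.pf_SUM
theorem gnb : T_GNB := Pool.Agent.H76.DEN.pf_GNB sum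
theorem htb : T_HTB := Pool.Agent.H81.DEN.pf_HTB
theorem div : T_DIV := Pool.Agent.H72.DEN.pf_DIV rdg gnb htb
theorem vkp : T_VKP := Pool.Agent.H76.DEN.pf_VKP sum
theorem lin : T_LIN := Pool.Agent.H95.DEN.pf_LIN sum
theorem fgt : T_FGT := Pool.Agent.H95.DEN.pf_FGT
theorem nmr : T_NMR := Pool.Agent.H95.DEN.pf_NMR
theorem rk1 : T_RK1 := Pool.Agent.H53.DEN.pf_RK1 rdg fdm bez rbd sum div vkp lin fgt nmr
theorem omg : T_OMG := Pool.Agent.H40.DEN.pf_OMG rdg sum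
theorem cyc : T_CYC := Pool.Agent.H76.DEN.pf_CYC
theorem ord : T_ORD := Pool.Agent.H72.DEN.pf_ORD
theorem val : Pool.Agent.H37.DEN.T_VAL := Pool.Agent.H95.DEN.pf_VAL rdg ord
theorem res : Pool.Agent.H37.DEN.T_RES := Pool.Agent.H95.DEN.pf_RES rdg ord val
theorem kon : T_KON := Pool.Agent.H72.DEN.pf_KON
theorem idx : T_IDX := Pool.Agent.H7.DEN.pf_IDX rdg val
theorem pol : T_POL := Pool.Agent.H51.DEN.pf_POL ord
theorem gnc : T_GNC := Pool.Agent.H95.DEN.pf_GNC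
theorem dg1 : T_DG1 := Pool.Agent.H81.DEN.pf_DG1 itr bez aux ord kon pol gnc
theorem dg2 : T_DG2 := Pool.Agent.H95.DEN.pf_DG2 itr kon pol dg1
theorem rho : T_RHO := Pool.Agent.H40.DEN.pf_RHO itr kon pol dg2
theorem dom : T_DOM := Pool.Agent.H95.DEN.pf_DOM
theorem xgr : T_XGR := Pool.Agent.H95.DEN.pf_XGR kon pol
theorem sgn : T_SGN := Pool.Agent.H81.DEN.pf_SGN rdg itr val kon idx rk1 pol gnc rho dom
theorem cop : T_COP := Pool.Agent.H54.DEN.pf_COP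
theorem dfm : T_DFM := Pool.Agent.H54.DEN.pf_DFM
theorem dfe : T_DFE := Pool.Agent.H54.DEN.pf_DFE
theorem dfp : T_DFP := Pool.Agent.H54.DEN.pf_DFP
theorem din : T_DIN := Pool.Agent.H81.DEN.pf_DIN rdg ord val res dfm dfe dfp
theorem tay : T_TAY := Pool.Agent.H70.DEN.pf_TAY
theorem spc : T_SPC := Pool.Agent.H72.DEN.pf_SPC pol
theorem rnk' : Pool.Agent.H37.DEN.T_RNK := Pool.Agent.H43.DEN.pf_RNK Pool.Agent.H18.HIT.All.rtd spc

end Pool.Agent.H37.DEN.Al
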