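import Pool.Agent.H8.TD.Targets
import Pool.Agent.H18.TE.Targets

/-!
# Zariski dense orbits of non-birational maps of affine space of dimension three: definitions
-/

set_option autoImplicit false

open MvPolynomial Filter
open Pool.Agent.H12.ZD (pmap v O Res DenseOrbit NoInv)
open Pool.Agent.H18.HIT
open Pool.Agent.H8.TD

namespace Pool.Agent.H37.DEN

section defs

variable {k : Type} [Field k]

/-- `g(φ) = h(φ ^ e)` for Laurent series -/
def IsPow (e : ℕ) (h g : LaurentSeries k) : Prop :=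
  ∀ n : ℤ, g.coeff ((e : ℤ) * n) = h.coeff n ∧ (¬ (e : ℤ) ∣ n → g.coeff n = 0)

/-- a curve with its places at infinity: `m` homomorphisms to the Laurent series with the same
kernel which transform `T` into `φ ↦ φ ^ e` -/
structure Cv (T : Tup 3 k) (e m : ℕ) where
  ch : Fin m → Po 3 k →ₐ[k] LaurentSeries k
  ker : ∀ i j q, ch i q = 0 → ch j q = 0
  pow : ∀ i q, IsPow e (ch i q) (ch i (aeval T q))
  sum : ∀ q, (∀ i, ch i q ≠ 0) → ∑ i, (ch i q).order ≤ 0
  prim : ∀ i (r : ℕ), 1 < r → ∃ j n, ¬ (r : ℤ) ∣ n ∧ (ch i (X j)).coeff n ≠ 0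

/-- the order of the pole -/
noncomputable def pl (x : LaurentSeries k) : ℕ := (-x.order).toNat

/-- the largest order of a pole of a coordinate -/
noncomputable def dl (χ : Po 3 k →ₐ[k] LaurentSeries k) : ℕ :=
  Finset.univ.sup fun j => pl (χ (X j))

/-- the number of poles of a polynomial on the curve -/
noncomputable def Cv.pol {T : Tup 3 k} {e m : ℕ} (C : Cv T e m) (q : Po 3 k) : ℕ :=
  ∑ i, pl (C.ch i q)

/-- the degree of the curve -/
noncomputable def Cv.dlt {T : Tup 3 k} {e m : ℕ} (C : Cv T e m) : ℕ := ∑ i, dl (C.ch i)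

/-- numerator -/
noncomputable def nu (h : K3 k) : Po 3 k := (IsLocalization.sec (nonZeroDivisors (Po 3 k)) h).1

/-- denominator -/
noncomputable def de (h : K3 k) : Po 3 k := (IsLocalization.sec (nonZeroDivisors (Po 3 k)) h).2

/-- the inclusion of the polynomials -/
noncomputable def ι (q : Po 3 k) : K3 k := algebraMap (Po 3 k) (K3 k) q

/-- the order of a rational function at a place -/
noncomputable def vs (χ : Po 3 k →ₐ[k] LaurentSeries k) (h : K3 k) : ℤ :=
  (χ (nu h)).order - (χ (de h)).order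

/-- the degree of a rational function (degree of the numerator minus degree of the
denominator) -/
noncomputable def rd (h : K3 k) : ℤ := ((nu h).totalDegree : ℤ) - ((de h).totalDegree : ℤ)

/-- quotients of polynomials of degree at most `a` -/
def Ht (h : K3 k) (a : ℕ) : Prop := ∃ B C : Po 3 k, C ≠ 0 ∧ h = ι B / ι C ∧
  B.totalDegree ≤ a ∧ C.totalDegree ≤ a

/-- the value group element of a rational function in the ultraproduct -/
noncomputable def Vg {S : Type} (U : Ultrafilter S) (χ : S → Po 3 k →ₐ[k] LaurentSeries k)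
    (h : K3 k) : Germ (U : Filter S) ℤ := ((fun s => vs (χ s) h : S → ℤ) : Germ (U : Filter S) ℤ)

/-- the action on the rational functions -/
structure Fld (T : Tup 3 k) (τ : K3 k →ₐ[k] K3 k) (e : ℕ) : Prop where
  map : ∀ q, τ (ι q) = ι (aeval T q)
  two : 2 ≤ e
  fin : Module.finrank τ.fieldRange (K3 k) = e
  inv : ∀ h, τ h = h → ∃ c : k, h = algebraMap k (K3 k) c

/-- the degrees of the iterates grow at most like `e ^ n` -/
def Grow (τ : K3 k →ₐ[k] K3 k) (e : ℕ) : Prop := ∀ c : ℝ, (e : ℝ) < c → ∃ N : ℕ, ∀ n ≥ N,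
  ∀ s s' s'' : Fin 3 → k,
    (dg k {lc s (xx k), lc s' (ph τ n), lc s'' (ph τ n)} : ℝ) < c ^ n

/-- a valuation with `V ∘ τ = e V` -/
structure Vt (τ : K3 k →ₐ[k] K3 k) (e : ℕ) {Λ : Type} [AddCommGroup Λ] [LinearOrder Λ]
    (V : K3 k → Λ) : Prop where
  mul : ∀ a b, a ≠ 0 → b ≠ 0 → V (a * b) = V a + V b
  add : ∀ a b, a ≠ 0 → b ≠ 0 → a + b ≠ 0 → min (V a) (V b) ≤ V (a + b)
  con : ∀ c : k, c ≠ 0 → V (algebraMap k (K3 k) c) = 0
  tau : ∀ a, a ≠ 0 → V (τ a) = (e : ℤ) • V a

/-- the value of `u` generates the values modulo `e` -/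
structure Gen (e : ℕ) {Λ : Type} [AddCommGroup Λ] (V : K3 k → Λ) (u : K3 k) : Prop where
  ne : u ≠ 0
  ord : ∀ (i : ℤ) (l : Λ), i • V u = (e : ℤ) • l → (e : ℤ) ∣ i
  gen : ∀ h, h ≠ 0 → ∃ (i : ℕ) (l : Λ), i < e ∧ V h = (i : ℤ) • V u + (e : ℤ) • l

/-- the space generated over `κ` by the polynomials of degree at most `a` -/
noncomputable def Sp (κ : IntermediateField k (K3 k)) (a : ℕ) : Submodule κ (K3 k) :=
  Submodule.span κ {h | ∃ q : Po 3 k, q.totalDegree ≤ a ∧ h = ι q}

/-- the space generated over `κ` by the products `q * P ^ i`, `deg q ≤ a`, `i < J` -/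
noncomputable def Wl (κ : IntermediateField k (K3 k)) (P : K3 k) (J a : ℕ) :
    Submodule κ (K3 k) :=
  Submodule.span κ {h | ∃ (q : Po 3 k) (i : ℕ), q.totalDegree ≤ a ∧ i < J ∧ h = ι q * P ^ i}

/-- the space of the polynomials `∑ q_i * P ^ i`, `deg q_i ≤ a`, `i ≤ J` -/
noncomputable def WP (P : Po 3 k) (J a : ℕ) : Submodule k (Po 3 k) :=
  Submodule.span k {h | ∃ (q : Po 3 k) (i : ℕ), q.totalDegree ≤ a ∧ i ≤ J ∧ h = q * P ^ i}

/-- all the exponents below `b` are divisible by `μ` -/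
def Df (μ : ℕ) (x : LaurentSeries k) (b : ℤ) : Prop :=
  ∀ n : ℤ, n < b → ¬ (μ : ℤ) ∣ n → x.coeff n = 0

end defs

end Pool.Agent.H37.DEN
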