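import Pool.Agent.H37.DEN.Defs

/-!
# Zariski dense orbits of non-birational maps of affine space of dimension three: the targets
-/

set_option autoImplicit false

open MvPolynomial Filter Topology
open Pool.Agent.H12.ZD (pmap v O Res DenseOrbit NoInv)
open Pool.Agent.H18.HIT
open Pool.Agent.H8.TD

namespace Pool.Agent.H37.DEN

/-! ## A. Degrees and Hilbert functions -/

/-- degrees of rational functions -/
def T_RDG : Prop := ∀ (k : Type) [Field k],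
  (∀ h : K3 k, de h ≠ 0 ∧ h = ι (nu h) / ι (de h) ∧ (h ≠ 0 → nu h ≠ 0)) ∧
  (∀ P Q : Po 3 k, P ≠ 0 → Q ≠ 0 →
    rd (ι P / ι Q) = (P.totalDegree : ℤ) - (Q.totalDegree : ℤ)) ∧
  (∀ a b : K3 k, a ≠ 0 → b ≠ 0 → rd (a * b) = rd a + rd b) ∧
  (∀ a b : K3 k, a ≠ 0 → b ≠ 0 → a + b ≠ 0 → rd (a + b) ≤ max (rd a) (rd b)) ∧
  ∀ c : k, c ≠ 0 → rd (algebraMap k (K3 k) c) = 0

/-- the iterates of `τ` on polynomials -/
def T_ITR : Prop := ∀ (k : Type) [Field k] (T : Tup 3 k) (τ : K3 k →ₐ[k] K3 k),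
  (∀ q, τ (ι q) = ι (aeval T q)) → (∀ (n : ℕ) (q : Po 3 k), τ^[n] (ι q) = ι (aeval (it T n) q)) ∧
  (∀ (n : ℕ) (i : Fin 3), ph τ n i = ι (it T n i)) ∧
  (∀ (n : ℕ) (P : Po 3 k), aeval (ph τ n) P = τ^[n] (ι P)) ∧
  (∀ (n : ℕ) (q : Po 3 k), q ≠ 0 → aeval (it T n) q ≠ 0) ∧
  ∀ (n : ℕ) (P Q : Po 3 k), P ≠ 0 → Q ≠ 0 → rd (τ^[n] (ι P / ι Q)) =
    ((aeval (it T n) P).totalDegree : ℤ) - ((aeval (it T n) Q).totalDegree : ℤ)

/-- finite dimension -/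
def T_FDM : Prop := ∀ (k : Type) [Field k] (κ : IntermediateField k (K3 k)) (P : K3 k) (J a : ℕ),
  Module.Finite κ (Sp κ a) ∧ Module.Finite κ (Wl κ P J a)

/-- the Hilbert function of the generic surface `g = c` -/
def T_HSF : Prop := ∀ (k : Type) [Field k] (g : Po 3 k) (b : ℕ), 1 ≤ g.totalDegree →
  g.totalDegree ≤ b →
  Module.finrank (IntermediateField.adjoin k {ι g}) (Sp (IntermediateField.adjoin k {ι g}) b) +
    (b - g.totalDegree + 3).choose 3 ≤ (b + 3).choose 3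

/-- lower bound for the dimension of the space of the `∑ q_i * P ^ i` -/
def T_LWP : Prop := ∀ (k : Type) [Field k] (P : Po 3 k) (J a : ℕ), 1 ≤ P.totalDegree →
  P.totalDegree ≤ a → Module.Finite k (WP P J a) ∧
  (a + 3).choose 3 + J * ((a + 3).choose 3 - (a - P.totalDegree + 3).choose 3) ≤
    Module.finrank k (WP P J a)

/-- the increments become stable -/
def T_INC : Prop := ∀ (k : Type) [Field k] (κ : IntermediateField k (K3 k)) (P : K3 k),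
  ∃ i₀ : ℕ, ∀ i ≥ i₀, ∀ (a : ℕ) (b : K3 k), b ∈ Sp κ a → b * P ^ i ∈ Wl κ P i a →
    b * P ^ i₀ ∈ Wl κ P i₀ a

/-- stable increments are bounded by the dimension over the larger field -/
def T_DIM : Prop := ∀ (k : Type) [Field k] (g P : K3 k) (i₀ : ℕ),
  AlgebraicIndependent k ![g, P] →
  (∀ i ≥ i₀, ∀ (a : ℕ) (b : K3 k), b ∈ Sp (IntermediateField.adjoin k {g}) a →
    b * P ^ i ∈ Wl (IntermediateField.adjoin k {g}) P i a →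
    b * P ^ i₀ ∈ Wl (IntermediateField.adjoin k {g}) P i₀ a) → ∀ a J : ℕ,
  Module.finrank (IntermediateField.adjoin k {g}) (Wl (IntermediateField.adjoin k {g}) P
      (i₀ + J) a) ≤
    Module.finrank (IntermediateField.adjoin k {g}) (Wl (IntermediateField.adjoin k {g}) P
      i₀ a) +
    J * Module.finrank (IntermediateField.adjoin k {g, P})
      (Sp (IntermediateField.adjoin k {g, P}) a)

/-- numbers -/
def T_NMJ : Prop := ∀ p q D α c : ℕ, 1 ≤ q → q ≤ p → 6 * D < α ^ 2 → ∃ J₀ : ℕ, ∀ J ≥ J₀,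
  J * ((α * J + c + 3).choose 3 - (α * J + c - q + 3).choose 3 +
      (J + 1) * ((α * J + 1) * D)) <
    (α * J + 3).choose 3 + J * ((α * J + 3).choose 3 - (α * J - p + 3).choose 3)

/-- Bézout -/
def T_BEZ : Prop := ∀ (k : Type) [Field k] [CharZero k] (τ : K3 k →ₐ[k] K3 k)
  (P Q : Po 3 k) (n M : ℕ),
  (∀ s s' s'' : Fin 3 → k, dg k {lc s (xx k), lc s' (ph τ n), lc s'' (ph τ n)} ≤ M) →
  ∀ s : Fin 3 → k, dg k {lc s (xx k), τ^[n] (ι P), τ^[n] (ι Q)} ≤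
    P.totalDegree * Q.totalDegree * M

/-- the Hilbert function of a curve over `k(g, h)` -/
def T_RBD : Prop := ∀ (k : Type) [Field k] [CharZero k] (g h : K3 k) (D : ℕ),
  AlgebraicIndependent k ![g, h] → (∀ s : Fin 3 → k, dg k {lc s (xx k), g, h} ≤ D) → ∀ a : ℕ,
  Module.finrank (IntermediateField.adjoin k {g, h}) (Sp (IntermediateField.adjoin k {g, h}) a) ≤
    (a + 1) * D

/-- a polynomial in the space of the `∑ q_i * P ^ i` which is divisible by many generic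
`Q - c_j` -/
def T_AUX : Prop := ∀ (k : Type) [Field k] [CharZero k] (P Q : Po 3 k) (D α : ℕ),
  AlgebraicIndependent k ![P, Q] → (∀ s : Fin 3 → k, dg k {lc s (xx k), ι P, ι Q} ≤ D) →
  Q.totalDegree ≤ P.totalDegree → 6 * D < α ^ 2 →
  ∃ J : ℕ, 1 ≤ J ∧ ∀ E₀ : Finset k, ∃ (c : Fin J → k) (R G : Po 3 k), (∀ j, c j ∉ E₀) ∧
    R ∈ WP P J (α * J) ∧ G ≠ 0 ∧ R = G * ∏ j, (Q - C (c j))

/-! ## B. Valuations -/

/-- elements with different values -/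
def T_SUM : Prop := ∀ (k : Type) [Field k] (τ : K3 k →ₐ[k] K3 k) (e : ℕ) (Λ : Type)
  [AddCommGroup Λ] [LinearOrder Λ] [IsOrderedAddMonoid Λ] (V : K3 k → Λ), Vt τ e V →
  (∀ a b : K3 k, a ≠ 0 → b ≠ 0 → V a < V b → a + b ≠ 0 ∧ V (a + b) = V a) ∧
  (∀ a b : K3 k, a ≠ 0 → b ≠ 0 → V (a / b) = V a - V b) ∧
  ∀ (ι' : Type) (s : Finset ι') (y : ι' → K3 k), s.Nonempty → (∀ i ∈ s, y i ≠ 0) →
    (∀ i ∈ s, ∀ j ∈ s, V (y i) = V (y j) → i = j) →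
    (∑ i ∈ s, y i) ≠ 0 ∧ ∃ i ∈ s, V (∑ i ∈ s, y i) = V (y i) ∧ ∀ j ∈ s, V (y i) ≤ V (y j)

/-- the basis of the powers of `u` -/
def T_GNB : Prop := ∀ (k : Type) [Field k] (T : Tup 3 k) (τ : K3 k →ₐ[k] K3 k) (e : ℕ)
  (Λ : Type) [AddCommGroup Λ] [LinearOrder Λ] [IsOrderedAddMonoid Λ] (V : K3 k → Λ) (u : K3 k),
  Fld T τ e → Vt τ e V → Gen e V u →
  (∀ h, ∃! a : Fin e → K3 k, h = ∑ i, τ (a i) * u ^ (i : ℕ)) ∧
  ∀ (h : K3 k) (a : Fin e → K3 k), h ≠ 0 → h = ∑ i, τ (a i) * u ^ (i : ℕ) →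
    ∃ i, a i ≠ 0 ∧ V h = (e : ℤ) • V (a i) + ((i : ℕ) : ℤ) • V u

/-- the degrees of the coordinates with respect to a basis -/
def T_HTB : Prop := ∀ (k : Type) [Field k] (T : Tup 3 k) (τ : K3 k →ₐ[k] K3 k) (e : ℕ)
  (u : K3 k), Fld T τ e → (∀ h, ∃! a : Fin e → K3 k, h = ∑ i, τ (a i) * u ^ (i : ℕ)) →
  ∃ C₀ : ℕ, ∀ (n : ℕ) (h : K3 k), Ht h n → ∃ a : Fin e → K3 k,
    h = ∑ i, τ (a i) * u ^ (i : ℕ) ∧ ∀ i, Ht (a i) (C₀ * (n + 1))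

/-- division of values by `e` -/
def T_DIV : Prop := ∀ (k : Type) [Field k] (T : Tup 3 k) (τ : K3 k →ₐ[k] K3 k) (e : ℕ)
  (Λ : Type) [AddCommGroup Λ] [LinearOrder Λ] [IsOrderedAddMonoid Λ] (V : K3 k → Λ) (u : K3 k),
  Fld T τ e → Vt τ e V → Gen e V u → ∀ h₀, h₀ ≠ 0 → ∃ C₁ : ℕ, ∀ j : ℕ, ∃ (h : K3 k) (c : ℤ),
    h ≠ 0 ∧ ((e : ℤ) ^ j) • V h = V h₀ - c • V u ∧ Ht h (C₁ ^ (j + 1))

/-- the values of the elements of the field generated by two functions with independent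
values -/
def T_VKP : Prop := ∀ (k : Type) [Field k] (τ : K3 k →ₐ[k] K3 k) (e : ℕ) (Λ : Type)
  [AddCommGroup Λ] [LinearOrder Λ] [IsOrderedAddMonoid Λ] (V : K3 k → Λ), Vt τ e V →
  ∀ P Q : K3 k, P ≠ 0 → Q ≠ 0 → (∀ a b : ℤ, a • V P + b • V Q = 0 → a = 0 ∧ b = 0) →
  AlgebraicIndependent k ![P, Q] ∧ ∀ c ∈ IntermediateField.adjoin k {P, Q}, c ≠ 0 →
    ∃ a b : ℤ, V c = a • V P + b • V Q

/-- elements with values in different classes are independent -/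
def T_LIN : Prop := ∀ (k : Type) [Field k] (τ : K3 k →ₐ[k] K3 k) (e : ℕ) (Λ : Type)
  [AddCommGroup Λ] [LinearOrder Λ] [IsOrderedAddMonoid Λ] (V : K3 k → Λ), Vt τ e V →
  ∀ (κ : IntermediateField k (K3 k)) (G : AddSubgroup Λ), (∀ c ∈ κ, c ≠ 0 → V c ∈ G) →
  ∀ (ι' : Type) (y : ι' → K3 k), (∀ i, y i ≠ 0) →
    (∀ i j, V (y i) - V (y j) ∈ G → i = j) → LinearIndependent κ y

/-- a subgroup with a bounded denominator -/
def T_FGT : Prop := ∀ (Λ : Type) [AddCommGroup Λ] [LinearOrder Λ] [IsOrderedAddMonoid Λ]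
  (x y z w : Λ), (∀ a b : ℤ, a • x + b • y = 0 → a = 0 ∧ b = 0) → ∃ g : ℕ, 1 ≤ g ∧
  ∀ (a b n : ℤ) (l : Λ), l ∈ AddSubgroup.closure {x, y, z, w} → n ≠ 0 →
    a • x + b • y = n • l → n ∣ (g : ℤ) * a

/-- numbers: exponential growth against small exponential growth -/
def T_NMR : Prop := ∀ (e r g C : ℕ), 2 ≤ e → ∃ c : ℝ, (e : ℝ) < c ∧ ∃ J₀ : ℕ, ∀ J ≥ J₀,
  (C : ℝ) * (e : ℝ) ^ (r * J) * c ^ (r * J) * g <
    (e : ℝ) ^ J * ((e : ℝ) ^ (r * J)) ^ 2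

/-- the values have rank one -/
def T_RK1 : Prop := ∀ (k : Type) [Field k] [CharZero k] (T : Tup 3 k) (τ : K3 k →ₐ[k] K3 k)
  (e : ℕ) (Λ : Type) [AddCommGroup Λ] [LinearOrder Λ] [IsOrderedAddMonoid Λ] (V : K3 k → Λ)
  (u : K3 k), Fld T τ e → Grow τ e → Vt τ e V → Gen e V u → ∀ g h : K3 k, g ≠ 0 → h ≠ 0 →
  ∃ a b : ℤ, ¬ (a = 0 ∧ b = 0) ∧ a • V g + b • V h = 0

/-- the values are rational multiples of one value with denominators `A₀ * e ^ j` -/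
def T_OMG : Prop := ∀ (k : Type) [Field k] (T : Tup 3 k) (τ : K3 k →ₐ[k] K3 k)
  (e : ℕ) (Λ : Type) [AddCommGroup Λ] [LinearOrder Λ] [IsOrderedAddMonoid Λ] (V : K3 k → Λ)
  (X : K3 k), Fld T τ e → Vt τ e V →
  (∀ h, h ≠ 0 → V h = 0 → τ h = h ∨ 0 < V (τ h - h)) →
  (∀ g h : K3 k, g ≠ 0 → h ≠ 0 → ∃ a b : ℤ, ¬ (a = 0 ∧ b = 0) ∧ a • V g + b • V h = 0) →
  (∀ h, h ≠ 0 → 0 < V h → ∃ N : ℕ, ∀ n ≥ N, rd (τ^[n] h) < 0) →
  X ≠ 0 → V X < 0 → (∃ c : ℝ, 0 < c ∧ ∀ n : ℕ, c * (e : ℝ) ^ n ≤ (rd (τ^[n] X) : ℝ)) →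
  ∃ A₀ : ℕ, 1 ≤ A₀ ∧ ∀ h, h ≠ 0 → ∃ (j : ℕ) (m : ℤ), ((A₀ : ℤ) * (e : ℤ) ^ j) • V h = m • V X

/-- such a group is cyclic -/
def T_CYC : Prop := ∀ (Λ : Type) [AddCommGroup Λ] [LinearOrder Λ] [IsOrderedAddMonoid Λ]
  (Γ : AddSubgroup Λ) (e A₀ : ℕ) (γ δ : Λ), 2 ≤ e → 1 ≤ A₀ → γ ∈ Γ → δ ∈ Γ → δ ≠ 0 →
  (∀ (i : ℤ) (l : Λ), i • γ = (e : ℤ) • l → (e : ℤ) ∣ i) →
  (∀ x ∈ Γ, ∃ (j : ℕ) (m : ℤ), ((A₀ : ℤ) * (e : ℤ) ^ j) • x = m • δ) →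
  ∃ μ ∈ Γ, 0 < μ ∧ ∀ x ∈ Γ, ∃ a : ℤ, x = a • μ

/-! ## C. The ultraproduct -/

/-- a family of totally invariant curves such that no polynomial vanishes on almost all of
them -/
structure Fam {k : Type} [Field k] (T : Tup 3 k) (τ : K3 k →ₐ[k] K3 k) (e m : ℕ) {S : Type}
    (U : Ultrafilter S) (C : S → Cv T e m) : Prop where
  fld : Fld T τ e
  one : 1 ≤ m
  gen : ∀ P, P ≠ 0 → ∀ᶠ s in (U : Filter S), ∀ i, (C s).ch i P ≠ 0

/-- orders and substitution -/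
def T_ORD : Prop := ∀ (k : Type) [Field k] (e : ℕ) (x y : LaurentSeries k), 1 ≤ e →
  IsPow e x y → (x = 0 ↔ y = 0) ∧ y.order = e * x.order ∧
    y.coeff y.order = x.coeff x.order

/-- the valuation of the ultraproduct -/
def T_VAL : Prop := ∀ (k : Type) [Field k] (T : Tup 3 k) (τ : K3 k →ₐ[k] K3 k) (e m : ℕ)
  (S : Type) (U : Ultrafilter S) (C : S → Cv T e m), Fam T τ e m U C → ∀ i : Fin m,
  Vt τ e (Vg U fun s => (C s).ch i) ∧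
  (∀ P Q : Po 3 k, P ≠ 0 → Q ≠ 0 → ∀ᶠ s in (U : Filter S), vs ((C s).ch i) (ι P / ι Q) =
    ((C s).ch i P).order - ((C s).ch i Q).order) ∧
  ∀ h : K3 k, h ≠ 0 → ∀ᶠ s in (U : Filter S), (C s).ch i (nu h) ≠ 0 ∧ (C s).ch i (de h) ≠ 0

/-- the constant term is invariant -/
def T_RES : Prop := ∀ (k : Type) [Field k] (T : Tup 3 k) (τ : K3 k →ₐ[k] K3 k) (e m : ℕ)
  (S : Type) (U : Ultrafilter S) (C : S → Cv T e m), Fam T τ e m U C → ∀ (i : Fin m)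
  (h : K3 k), h ≠ 0 → Vg U (fun s => (C s).ch i) h = 0 →
  τ h = h ∨ 0 < Vg U (fun s => (C s).ch i) (τ h - h)

/-- polynomials without poles are constant, the degree is positive -/
def T_KON : Prop := ∀ (k : Type) [Field k] (T : Tup 3 k) (τ : K3 k →ₐ[k] K3 k) (e m : ℕ)
  (S : Type) (U : Ultrafilter S) (C : S → Cv T e m), Fam T τ e m U C →
  (∀ q : Po 3 k, (∀ᶠ s in (U : Filter S), (C s).pol q = 0) → ∃ c : k, q = MvPolynomial.C c) ∧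
  ∀ᶠ s in (U : Filter S), 1 ≤ (C s).dlt

/-- the values modulo `e` -/
def T_IDX : Prop := ∀ (k : Type) [Field k] [IsAlgClosed k] [CharZero k] (T : Tup 3 k)
  (τ : K3 k →ₐ[k] K3 k) (e m : ℕ) (S : Type) (U : Ultrafilter S) (C : S → Cv T e m),
  Fam T τ e m U C → ∀ i : Fin m, ∃ u : K3 k, Gen e (Vg U fun s => (C s).ch i) u

/-- numbers of poles -/
def T_POL : Prop := ∀ (k : Type) [Field k] (T : Tup 3 k) (e m : ℕ) (C : Cv T e m), 1 ≤ e →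
  (∀ (i : Fin m) (n : ℕ) (q : Po 3 k),
    pl (C.ch i (aeval (it T n) q)) = e ^ n * pl (C.ch i q)) ∧
  (∀ (i : Fin m) (q : Po 3 k), pl (C.ch i q) ≤ q.totalDegree * dl (C.ch i)) ∧
  (∀ (i : Fin m) (P R : Po 3 k) (J a : ℕ), R ∈ WP P J a →
    pl (C.ch i R) ≤ a * dl (C.ch i) + J * pl (C.ch i P)) ∧
  (∀ (i : Fin m) (P Q : Po 3 k), pl (C.ch i (P * Q)) ≤ pl (C.ch i P) + pl (C.ch i Q)) ∧
  ∀ (i : Fin m) (P : Po 3 k) (n : ℕ), pl (C.ch i (P ^ n)) = n * pl (C.ch i P)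

/-- general constants -/
def T_GNC : Prop := ∀ (k : Type) [Field k] (T : Tup 3 k) (τ : K3 k →ₐ[k] K3 k) (e m : ℕ)
  (S : Type) (U : Ultrafilter S) (C : S → Cv T e m), Fam T τ e m U C →
  (∀ Q : Po 3 k, ∃ E₀ : Finset k, ∀ c, c ∉ E₀ → ∀ᶠ s in (U : Filter S), ∀ i,
    ((C s).ch i (Q - MvPolynomial.C c)).order = -(pl ((C s).ch i Q) : ℤ)) ∧
  ∀ P Q : Po 3 k, P ≠ 0 → Q ≠ 0 → ∃ E₀ : Finset k, ∀ c, c ∉ E₀ →
    ∀ᶠ s in (U : Filter S), ∀ i, ((C s).ch i (P + MvPolynomial.C c * Q)).order =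
      min ((C s).ch i P).order ((C s).ch i Q).order

/-- comparison of degrees, the independent case -/
def T_DG1 : Prop := ∀ (k : Type) [Field k] [IsAlgClosed k] [CharZero k] (T : Tup 3 k)
  (τ : K3 k →ₐ[k] K3 k) (e m : ℕ) (S : Type) (U : Ultrafilter S) (C : S → Cv T e m),
  Fam T τ e m U C → Grow τ e → ∀ (P Q : Po 3 k) (c : ℝ), AlgebraicIndependent k ![P, Q] →
  0 < c → (∀ᶠ s in (U : Filter S), ((C s).pol P : ℝ) + c * (C s).dlt ≤ (C s).pol Q) →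
  ∃ N : ℕ, ∀ n ≥ N, (aeval (it T n) P).totalDegree < (aeval (it T n) Q).totalDegree

/-- comparison of degrees -/
def T_DG2 : Prop := ∀ (k : Type) [Field k] [IsAlgClosed k] [CharZero k] (T : Tup 3 k)
  (τ : K3 k →ₐ[k] K3 k) (e m : ℕ) (S : Type) (U : Ultrafilter S) (C : S → Cv T e m),
  Fam T τ e m U C → Grow τ e → ∀ (P Q : Po 3 k) (c : ℝ), P ≠ 0 → Q ≠ 0 →
  0 < c → (∀ᶠ s in (U : Filter S), ((C s).pol P : ℝ) + c * (C s).dlt ≤ (C s).pol Q) →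
  ∃ N : ℕ, ∀ n ≥ N, (aeval (it T n) P).totalDegree < (aeval (it T n) Q).totalDegree

/-- the limit of the numbers of poles is a valuation -/
def T_RHO : Prop := ∀ (k : Type) [Field k] [IsAlgClosed k] [CharZero k] (T : Tup 3 k)
  (τ : K3 k →ₐ[k] K3 k) (e m : ℕ) (S : Type) (U : Ultrafilter S) (C : S → Cv T e m),
  Fam T τ e m U C → Grow τ e → ∃ ρ : Po 3 k → ℝ,
  (∀ P, P ≠ 0 → Tendsto (fun s => ((C s).pol P : ℝ) / (C s).dlt) (U : Filter S) (𝓝 (ρ P))) ∧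
  (∀ P Q, P ≠ 0 → Q ≠ 0 → ρ P < ρ Q → ∃ N : ℕ, ∀ n ≥ N,
    (aeval (it T n) P).totalDegree < (aeval (it T n) Q).totalDegree) ∧
  (∀ P Q, P ≠ 0 → Q ≠ 0 → ρ (P * Q) = ρ P + ρ Q) ∧
  ∀ P Q, P ≠ 0 → Q ≠ 0 → P + Q ≠ 0 → ρ (P + Q) ≤ max (ρ P) (ρ Q)

/-- the sign of the value at the dominating place is the sign of the degrees -/
def T_SGN : Prop := ∀ (k : Type) [Field k] [IsAlgClosed k] [CharZero k] (T : Tup 3 k)
  (τ : K3 k →ₐ[k] K3 k) (e m : ℕ) (S : Type) (U : Ultrafilter S) (C : S → Cv T e m),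
  Fam T τ e m U C → Grow τ e → ∀ i₀ : Fin m,
  (∀ᶠ s in (U : Filter S), (C s).dlt ≤ m * dl ((C s).ch i₀)) →
  ∀ h : K3 k, h ≠ 0 → 0 < Vg U (fun s => (C s).ch i₀) h →
    ∃ N : ℕ, ∀ n ≥ N, rd (τ^[n] h) < 0

/-- a dominating place and a coordinate with the largest pole -/
def T_DOM : Prop := ∀ (k : Type) [Field k] (T : Tup 3 k) (τ : K3 k →ₐ[k] K3 k) (e m : ℕ)
  (S : Type) (U : Ultrafilter S) (C : S → Cv T e m), Fam T τ e m U C → ∃ i₀ : Fin m,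
  (∀ᶠ s in (U : Filter S), (C s).dlt ≤ m * dl ((C s).ch i₀)) ∧
  ∀ i : Fin m, ∃ j : Fin 3, ∀ᶠ s in (U : Filter S), pl ((C s).ch i (X j)) = dl ((C s).ch i)

/-- the degrees of the iterates are at least the numbers of poles -/
def T_XGR : Prop := ∀ (k : Type) [Field k] (T : Tup 3 k) (τ : K3 k →ₐ[k] K3 k) (e m : ℕ)
  (S : Type) (U : Ultrafilter S) (C : S → Cv T e m), Fam T τ e m U C → ∀ (P : Po 3 k) (c : ℝ),
  P ≠ 0 → (∀ᶠ s in (U : Filter S), c * (C s).dlt ≤ (C s).pol P) →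
  ∀ n : ℕ, c * (e : ℝ) ^ n ≤ ((aeval (it T n) P).totalDegree : ℝ)

/-! ## D. Symmetries -/

/-- the value of the generator is prime to `e` almost everywhere -/
def T_COP : Prop := ∀ (S : Type) (U : Ultrafilter S) (e : ℕ) (μ : S → ℕ) (a : ℤ), 2 ≤ e →
  (∀ (i : ℤ) (l : Germ (U : Filter S) ℤ),
    i • (a • (((fun s => (μ s : ℤ)) : S → ℤ) : Germ (U : Filter S) ℤ)) = (e : ℤ) • l →
      (e : ℤ) ∣ i) → ∀ᶠ s in (U : Filter S), Nat.Coprime (μ s) e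

/-- series with exponents divisible by `μ` up to some order: products, inverses, sums -/
def T_DFM : Prop := ∀ (k : Type) [Field k] (μ : ℕ) (x y : LaurentSeries k) (B : ℤ), 1 ≤ μ →
  0 ≤ B → x ≠ 0 → y ≠ 0 → (μ : ℤ) ∣ x.order → (μ : ℤ) ∣ y.order →
  Df μ x (x.order + B) → Df μ y (y.order + B) →
  Df μ (x * y) (x.order + y.order + B) ∧ Df μ x⁻¹ (-x.order + B)

/-- the same for the substitution -/
def T_DFP : Prop := ∀ (k : Type) [Field k] (μ e : ℕ) (x y : LaurentSeries k) (b : ℤ), 1 ≤ e →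
  Nat.Coprime μ e → IsPow e x y → (Df μ y (e * b) ↔ Df μ x b)

/-- series with exponents divisible by `μ` up to some order: roots -/
def T_DFE : Prop := ∀ (k : Type) [Field k] [CharZero k] (μ e : ℕ) (y : LaurentSeries k) (D : ℤ),
  1 ≤ e → 0 ≤ D → y ≠ 0 → (μ : ℤ) ∣ y.order → Df μ y (y.order + D) →
  Df μ (y ^ e) (e * y.order + D + 1) → Df μ y (y.order + D + 1)

/-- the first exponent which is not divisible by `μ` is far away -/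
def T_DIN : Prop := ∀ (k : Type) [Field k] [CharZero k] (T : Tup 3 k) (τ : K3 k →ₐ[k] K3 k) (e m : ℕ)
  (S : Type) (U : Ultrafilter S) (C : S → Cv T e m), Fam T τ e m U C → ∀ (i : Fin m)
  (μ : S → ℕ) (u : K3 k), u ≠ 0 →
  (∀ᶠ s in (U : Filter S), 1 ≤ μ s ∧ Nat.Coprime (μ s) e) →
  (∀ᶠ s in (U : Filter S), vs ((C s).ch i) u = μ s) →
  (∀ h, h ≠ 0 → ∃ a : ℤ, ∀ᶠ s in (U : Filter S), vs ((C s).ch i) h = a * μ s) →
  ∀ (N : ℕ) (h : K3 k), h ≠ 0 → ∀ᶠ s in (U : Filter S),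
    Df (μ s) ((C s).ch i (nu h) / (C s).ch i (de h)) (vs ((C s).ch i) h + N * μ s)

/-- the symmetry `φ ↦ η φ` moves the curve -/
def T_TAY : Prop := ∀ (k : Type) [Field k] [IsAlgClosed k] [CharZero k] (T : Tup 3 k) (e : ℕ),
  2 ≤ e → ∃ R : ℕ, ∀ (m : ℕ) (C : Cv T e m) (i : Fin m) (μ : ℕ) (B : ℤ), 1 < μ →
  Nat.Coprime μ e → C.ch i (jac T) ≠ 0 → (∀ j, Df μ (C.ch i (X j)) B) →
  B ≤ R * ((dl (C.ch i) : ℤ) + 1) + (C.ch i (jac T)).order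

/-- the degrees of the curves are bounded -/
def T_BDD : Prop := ∀ (k : Type) [Field k] [IsAlgClosed k] [CharZero k] (T : Tup 3 k)
  (τ : K3 k →ₐ[k] K3 k) (e m : ℕ) (S : Type) (U : Ultrafilter S) (C : S → Cv T e m),
  Fam T τ e m U C → Grow τ e → ∃ D : ℕ, ∀ᶠ s in (U : Filter S), (C s).dlt ≤ D

/-- the polynomials of bounded degree on a curve of bounded degree -/
def T_SPC : Prop := ∀ (k : Type) [Field k] (T : Tup 3 k) (e m : ℕ) (C : Cv T e m) (i : Fin m)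
  (q r : ℕ) (M : Fin r → Po 3 k), (∀ l, (M l).totalDegree ≤ q) → q * C.dlt + 1 < r →
  ∃ c : Fin r → k, c ≠ 0 ∧ C.ch i (∑ l, MvPolynomial.C (c l) * M l) = 0

/-- the degrees of the curves are not bounded -/
def T_RNK : Prop := ∀ (k : Type) [Field k] (T : Tup 3 k) (τ : K3 k →ₐ[k] K3 k) (e m : ℕ)
  (S : Type) (U : Ultrafilter S) (C : S → Cv T e m), Fam T τ e m U C → ∀ D : ℕ,
  ¬ ∀ᶠ s in (U : Filter S), (C s).dlt ≤ D

/-- there are no such families -/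
def T_NTH : Prop := ∀ (k : Type) [Field k] [IsAlgClosed k] [CharZero k] (T : Tup 3 k)
  (τ : K3 k →ₐ[k] K3 k) (e m : ℕ) (S : Type) (U : Ultrafilter S) (C : S → Cv T e m),
  Fam T τ e m U C → Grow τ e → False

end Pool.Agent.H37.DEN
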