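import Pool.Agent.H37.DEN.TP
import Pool.Agent.H37.DEN.Targets
import Pool.Agent.H55.FFM.TD

/-!
# Non-birational maps: from general points to a family of curves
-/

set_option autoImplicit false

open MvPolynomial Filter
open Pool.Agent.H12.ZD (pmap v O Res DenseOrbit NoInv)
open Pool.Agent.H18.HIT
open Pool.Agent.H8.TD
open Pool.Agent.H55.FFM (Vs PD VM deh trh Ext Ind fr T_GDP T_VMX T_CRV T_RDT T_RNK)

namespace Pool.Agent.H37.DEN

/-- the general points with a curve as orbit closure -/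
def Sup0 {k : Type} [Field k] (G : Tup 3 k) (E : ℕ) : Prop :=
  ∀ c : Po 3 k, c ≠ 0 → ∃ z : Fin 3 → k, eval z c ≠ 0 ∧
    ∃ (F : Type) (_ : Field F) (_ : Algebra k F) (π : Po 3 k →ₐ[k] F) (τ' : F →ₐ[k] F),
      VM G (van G z) π τ' ∧ Pool.Agent.H55.FFM.Cv k π.range ∧ deh (τ' : F →+* F) = E

theorem sup0 (hGDP : T_GDP) (hVMX : T_VMX) (hCRV : T_CRV) (hRDT : T_RDT) (hRNK : Pool.Agent.H55.FFM.T_RNK)
    (p : Nat.Primes) (hp : 3 ≤ (p : ℕ)) (H : Tup 3 (O p)) (τ : K3 Qb →ₐ[Qb] K3 Qb)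
    (θ : Po 3 Qb) (Φ : Polynomial (Po 3 Qb)) (Δ : Po 3 Qb) (R : Fin 3 → Polynomial (Po 3 Qb))
    (hinj : Function.Injective (aeval (flQ p H) : Po 3 Qb →ₐ[Qb] Po 3 Qb))
    (hτ : Ext (flQ p H) τ) (hprim : Prim (flQ p H) θ Φ Δ R)
    (hcov : Cov (flQ p H) Φ.natDegree) (hE : 2 ≤ Φ.natDegree) (hinv : NoInv (flQ p H))
    (hnd : ∀ z : Fin 3 → ℤ, van (flQ p H) (cZ z) ≠ ⊥) :
    Sup0 (flQ p H) Φ.natDegree := by
  intro c hc
  obtain ⟨cW, hcW, hW⟩ := hRNK 3 Qb (flQ p H) (Submodule.span Qb {1, X 0}) hinj hinv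
    (FiniteDimensional.span_of_finite Qb (Set.toFinite _))
  obtain ⟨z, -, hz, hstar, hprime, hor⟩ := hGDP 3 p H Φ.natDegree (c * Δ * cW) 1 0 (by norm_num)
    hp hcov (by omega) hinv (mul_ne_zero (mul_ne_zero hc hprim.ne) hcW) le_rfl
  rw [map_mul, map_mul] at hz
  have hzc := left_ne_zero_of_mul (left_ne_zero_of_mul hz)
  have hzΔ := right_ne_zero_of_mul (left_ne_zero_of_mul hz)
  have hzW := right_ne_zero_of_mul hz
  obtain ⟨hSS, θ', hθ'⟩ := hor.resolve_left (hnd z)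
  obtain ⟨F, _, _, π, τ', hvm⟩ := hVMX 3 Qb (flQ p H) (van (flQ p H) (cZ z)) hprime hstar
  have hΔ : Δ ∉ van (flQ p H) (cZ z) := fun h => hzΔ (h 0)
  have hX : ∀ c : Qb, X 0 - C c ∉ van (flQ p H) (cZ z) := by
    intro c' h
    have h1 := hW (cZ z) hzW (X 0 - C c') (by
      apply Submodule.sub_mem
      · exact Submodule.subset_span (by simp)
      · have : (C c' : Po 3 Qb) = c' • (1 : Po 3 Qb) := by
          rw [smul_eq_C_mul, mul_one]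
        rw [this]
        exact Submodule.smul_mem _ _ (Submodule.subset_span (by simp))) h
    have h2 := congrArg (coeff (Finsupp.single 0 1)) h1
    rw [coeff_sub, coeff_X, coeff_C, coeff_zero, if_pos rfl, if_neg (by
      intro h3
      have := DFunLike.congr_fun h3 0
      simp at this), sub_zero] at h2
    exact one_ne_zero h2
  refine ⟨cZ z, hzc, F, inferInstance, inferInstance, π, τ', hvm,
    hCRV Qb (flQ p H) _ F π τ' hvm hSS hX, ?_⟩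
  exact (hRDT 3 Qb (flQ p H) τ θ Φ Δ R _ F π τ' hinj hτ hprim hvm hΔ ⟨θ', hθ'⟩).2.2.1

/-- the family of curves and the contradiction -/
theorem fam (hPAR : T_PAR) (hNTH : T_NTH) (k : Type) [Field k] [IsAlgClosed k] [CharZero k]
    (G : Tup 3 k) (E : ℕ) (hE : 2 ≤ E) (hsup : Sup0 G E) (τ : K3 k →ₐ[k] K3 k)
    (hfld : Fld (it G 2) τ (E ^ 2)) (hgrow : Grow τ (E ^ 2)) : False := by
  classical
  -- the index type
  let S : Type := Σ m : Fin 3, Cv (it G 2) (E ^ 2) (m : ℕ)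
  have key : ∀ P : Po 3 k, P ≠ 0 → ∃ s : S, 1 ≤ (s.1 : ℕ) ∧ ∀ i, s.2.ch i P ≠ 0 := by
    intro P hP
    obtain ⟨z, hz, F, _, _, π, τ', hvm, hcv, hdeg⟩ := hsup P hP
    obtain ⟨m, C, hm1, hm2, hC⟩ := hPAR k G (van G z) F π τ' E hvm hcv hdeg hE
    refine ⟨⟨⟨m, by omega⟩, C⟩, hm1, fun i h0 => ?_⟩
    exact hz ((hC i P).1 h0 0)
  -- the ultrafilter
  let B : Set (Set S) := {A | ∃ P : Po 3 k, P ≠ 0 ∧
    A = {s : S | 1 ≤ (s.1 : ℕ) ∧ ∀ i, s.2.ch i P ≠ 0}}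
  have hB : ∀ A ∈ B, ∀ A' ∈ B, A ∩ A' ∈ B := by
    rintro A ⟨P, hP, rfl⟩ A' ⟨P', hP', rfl⟩
    refine ⟨P * P', mul_ne_zero hP hP', ?_⟩
    ext s
    constructor
    · rintro ⟨h1, h2⟩
      refine ⟨h1.1, fun i => ?_⟩
      rw [map_mul]
      exact mul_ne_zero (h1.2 i) (h2.2 i)
    · rintro ⟨h1, h2⟩
      refine ⟨⟨h1, fun i h0 => h2 i ?_⟩, ⟨h1, fun i h0 => h2 i ?_⟩⟩
      · rw [map_mul, h0, zero_mul]
      · rw [map_mul, h0, mul_zero]
  have hne : (Filter.generate B).NeBot := by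
    rw [Filter.generate_neBot_iff]
    intro t ht htf
    have h1 : ∀ t : Set (Set S), t.Finite → t ⊆ B → ∃ A ∈ B, A ⊆ ⋂₀ t := by
      intro t ht
      induction t, ht using Set.Finite.induction_on with
      | empty =>
        intro _
        exact ⟨_, ⟨1, one_ne_zero, rfl⟩, by simp⟩
      | insert _ _ ih =>
        intro hsub
        obtain ⟨A, hA, hA'⟩ := ih fun x hx => hsub (Set.mem_insert_of_mem _ hx)
        refine ⟨_, hB _ (hsub (Set.mem_insert _ _)) A hA, ?_⟩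
        rw [Set.sInter_insert]
        exact Set.inter_subset_inter_right _ hA'
    obtain ⟨A, ⟨P, hP, rfl⟩, hA⟩ := h1 t htf ht
    obtain ⟨s, hs⟩ := key P hP
    exact ⟨s, hA hs⟩
  obtain ⟨U, hU⟩ := Filter.exists_ultrafilter_le (Filter.generate B)
  have hUP : ∀ P : Po 3 k, P ≠ 0 → ∀ᶠ s in (U : Filter S),
      1 ≤ (s.1 : ℕ) ∧ ∀ i, s.2.ch i P ≠ 0 := by
    intro P hP
    exact hU (Filter.mem_generate_of_mem ⟨P, hP, rfl⟩)
  -- the number of places is constant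
  have h1 : ∃ m₀ : Fin 3, ∀ᶠ s in (U : Filter S), s.1 = m₀ := by
    by_contra hcon
    push Not at hcon
    have h2 : ∀ m₀ : Fin 3, ∀ᶠ s in (U : Filter S), ¬ s.1 = m₀ := fun m₀ => hcon m₀
    have h3 := Filter.eventually_all.2 h2
    obtain ⟨s, hs⟩ := h3.exists
    exact hs s.1 rfl
  obtain ⟨m₀, hm₀⟩ := h1
  have hm1 : 1 ≤ (m₀ : ℕ) := by
    obtain ⟨s, hs1, hs2⟩ := ((hUP 1 one_ne_zero).and hm₀).exists
    rw [← hs2]
    exact hs1.1
  obtain ⟨s₀, -, hs₀⟩ := ((hUP 1 one_ne_zero).and hm₀).exists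
  -- the family
  let C : S → Cv (it G 2) (E ^ 2) (m₀ : ℕ) := fun s =>
    if h : s.1 = m₀ then h ▸ s.2 else hs₀ ▸ s₀.2
  refine hNTH k (it G 2) τ (E ^ 2) m₀ S U C ⟨hfld, hm1, fun P hP => ?_⟩ hgrow
  filter_upwards [hUP P hP, hm₀] with s hs1 hs2 i
  have h3 : C s = hs2 ▸ s.2 := dif_pos hs2
  rw [h3]
  obtain ⟨s1, s2⟩ := s
  subst hs2
  exact hs1.2 i

end Pool.Agent.H37.DEN
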