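import Pool.Agent.H37.DEN.Defs
import Pool.Agent.H55.FFM.TE

/-!
# Zariski dense orbits of non-birational maps of affine space of dimension three: the targets of
part P, places of a totally invariant curve
-/

set_option autoImplicit false

open MvPolynomial Filter
open Pool.Agent.H12.ZD (pmap v O Res DenseOrbit NoInv)
open Pool.Agent.H18.HIT
open Pool.Agent.H8.TD
open Pool.Agent.H55.FFM (Vs PD VM deh trh)

namespace Pool.Agent.H37.DEN

/-- expansion in a Laurent series at a place -/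
def T_EXN : Prop := ∀ (k F S : Type) [Field k] [Field F] [Algebra k F] (v : S → F → ℤ),
  Vs k v → ∀ (s : S) (t : F), t ≠ 0 → v s t = 1 → ∃ χ : F →ₐ[k] LaurentSeries k,
    χ t = HahnSeries.single 1 1 ∧ ∀ a, a ≠ 0 → (χ a).order = v s a

/-- substitution in Laurent series -/
def T_SBH : Prop := ∀ (k : Type) [Field k] (ω : LaurentSeries k), ω.order = 1 →
  ∃ σ : LaurentSeries k →ₐ[k] LaurentSeries k, σ (HahnSeries.single 1 1) = ω ∧
    ∀ x, x ≠ 0 → (σ x).order = x.order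

/-- Böttcher's theorem for formal power series -/
def T_BOT : Prop := ∀ (k : Type) [Field k] [IsAlgClosed k] [CharZero k] (E : ℕ)
  (g : LaurentSeries k), 2 ≤ E → g ≠ 0 → g.order = E → ∃ ω : LaurentSeries k, ω.order = 1 ∧
  ∀ σ : LaurentSeries k →ₐ[k] LaurentSeries k, σ (HahnSeries.single 1 1) = ω →
    (∀ x, x ≠ 0 → (σ x).order = x.order) → IsPow E ω (σ g)

/-- a homomorphism to the Laurent series which transforms `τ` into `φ ↦ φ ^ E` -/
def T_EMB : Prop := ∀ (k F S : Type) [Field k] [IsAlgClosed k] [CharZero k] [Field F]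
  [Algebra k F] (v : S → F → ℤ), Vs k v → ∀ (s : S) (τ : F →ₐ[k] F) (E : ℕ), 2 ≤ E →
  (∀ a, a ≠ 0 → v s (τ a) = E * v s a) → ∃ χ : F →ₐ[k] LaurentSeries k,
    (∀ a, a ≠ 0 → (χ a).order = v s a) ∧ ∀ a, IsPow E (χ a) (χ (τ a))

/-- normalization -/
def T_NRM : Prop := ∀ (k F : Type) [Field k] [IsAlgClosed k] [CharZero k] [Field F] [Algebra k F]
  (R : Subalgebra k F) (τ : F →ₐ[k] F), Pool.Agent.H55.FFM.Cv k R → (∀ r ∈ R, τ r ∈ R) →
  ∃ R' : Subalgebra k F, R ≤ R' ∧ Pool.Agent.H55.FFM.Cv k R' ∧ (∀ r ∈ R', τ r ∈ R') ∧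
    ∀ a : F, IsIntegral R' a → a ∈ R'

/-- there are at most two places at infinity -/
def T_CRD : Prop := ∀ (k F : Type) [Field k] [IsAlgClosed k] [CharZero k] [Field F] [Algebra k F]
  (R : Subalgebra k F) (S : Type) [Fintype S] (v : S → F → ℤ) (τ : F →ₐ[k] F) (E : ℕ),
  Pool.Agent.H55.FFM.Cv k R → PD k R v → (∀ r ∈ R, τ r ∈ R) → deh (τ : F →+* F) = E → 2 ≤ E →
  (∀ a : F, IsIntegral R a → a ∈ R) → Fintype.card S ≤ 2

/-- the places at infinity of a totally invariant curve -/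
def T_PAR : Prop := ∀ (k : Type) [Field k] [IsAlgClosed k] [CharZero k] (G : Tup 3 k)
  (I : Ideal (Po 3 k)) (F : Type) [Field F] [Algebra k F] (π : Po 3 k →ₐ[k] F)
  (τ' : F →ₐ[k] F) (E : ℕ), VM G I π τ' → Pool.Agent.H55.FFM.Cv k π.range →
  deh (τ' : F →+* F) = E → 2 ≤ E →
  ∃ (m : ℕ) (C : Cv (it G 2) (E ^ 2) m), 1 ≤ m ∧ m ≤ 2 ∧ ∀ i q, C.ch i q = 0 ↔ q ∈ I

end Pool.Agent.H37.DEN
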